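import Pool.Agent.W845.TR.Base

set_option autoImplicit false
open scoped BigOperators

/-!
Project TR (MP_985e29_pr): strategies and finite wins.
-/

namespace Pool.Agent.W564.TR

open Pool.Agent.W845.TR

variable {d : ℕ}

theorem key0 {O : Set (S d)} {y : S d} {B : Finset (S d)}
    (h : ∀ n, ∃ z, Legal O y B z ∧ ¬ W O n z (insert z B)) :
    ∃ z, Legal O y B z ∧ ∀ n, ¬ W O n z (insert z B) := by
  classical
  by_contra hc
  push Not at hc
  have hc' : ∀ z, ∃ n, Legal O y B z → W O n z (insert z B) := by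
    intro z
    by_cases hz : Legal O y B z
    · obtain ⟨n, hn⟩ := hc z hz
      exact ⟨n, fun _ => hn⟩
    · exact ⟨0, fun h => absurd h hz⟩
  choose f hf using hc'
  obtain ⟨z, hz, hW⟩ := h ((nb y).sup f)
  exact hW (W_mono (Finset.le_sup (f := f) (mem_nb.2 hz.1)) (hf z hz))

theorem key1 {O : Set (S d)} {x : S d} {A : Finset (S d)} (h : ∀ n, ¬ W O n x A) {y : S d}
    (hy : Legal O x A y) :
    ∃ z, Legal O y (insert y A) z ∧ ∀ n, ¬ W O n z (insert z (insert y A)) := by
  apply key0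
  intro n
  by_contra hc
  push Not at hc
  exact h (n + 1) ⟨y, hy, hc⟩

/-- A strategy which wins from the winning positions. -/
def WinS (O : Set (S d)) (σ : S d → Finset (S d) → S d) : Prop :=
  IsStrategy O σ ∧ ∀ x A n, W O n x A → Legal O x A (σ x A) ∧
    ∃ m, m < n ∧ ∀ z, Legal O (σ x A) (insert (σ x A) A) z →
      W O m z (insert z (insert (σ x A) A))

/-- A strategy which never makes a losing move if it can. -/
def SafeS (O : Set (S d)) (σ : S d → Finset (S d) → S d) : Prop :=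
  IsStrategy O σ ∧ ∀ x A, (∃ z, Legal O x A z ∧ ∀ n, ¬ W O n z (insert z A)) →
    Legal O x A (σ x A) ∧ ∀ n, ¬ W O n (σ x A) (insert (σ x A) A)

theorem exists_winS (O : Set (S d)) : ∃ σ, WinS O σ := by
  classical
  have h : ∀ (x : S d) (A : Finset (S d)), ∃ y, ((∃ y, Legal O x A y) → Legal O x A y) ∧
      ∀ n, W O n x A → Legal O x A y ∧ ∃ m, m < n ∧ ∀ z, Legal O y (insert y A) z →
      W O m z (insert z (insert y A)) := by
    intro x A
    by_cases hW : ∃ n, W O n x A
    · have h1 := Nat.find_spec hW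
      have h2 : ∀ n, W O n x A → Nat.find hW ≤ n := fun n hn => Nat.find_min' hW hn
      revert h1 h2
      generalize Nat.find hW = n0
      intro h1 h2
      cases n0 with
      | zero => exact absurd h1 (by simp [W])
      | succ m =>
        obtain ⟨y, hy, hy2⟩ := h1
        exact ⟨y, fun _ => hy, fun n hn => ⟨hy, m, by have := h2 n hn; omega, hy2⟩⟩
    · by_cases hL : ∃ y, Legal O x A y
      · obtain ⟨y, hy⟩ := hL
        exact ⟨y, fun _ => hy, fun n hn => absurd ⟨n, hn⟩ hW⟩
      · exact ⟨x, fun h => absurd h hL, fun n hn => absurd ⟨n, hn⟩ hW⟩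
  choose σ h1 h2 using h
  exact ⟨σ, fun x A => h1 x A, fun x A => h2 x A⟩

theorem exists_safeS (O : Set (S d)) : ∃ σ, SafeS O σ := by
  classical
  have h : ∀ (x : S d) (A : Finset (S d)), ∃ y, ((∃ y, Legal O x A y) → Legal O x A y) ∧
      ((∃ z, Legal O x A z ∧ ∀ n, ¬ W O n z (insert z A)) →
      Legal O x A y ∧ ∀ n, ¬ W O n y (insert y A)) := by
    intro x A
    by_cases hW : ∃ z, Legal O x A z ∧ ∀ n, ¬ W O n z (insert z A)
    · obtain ⟨z, hz, hz2⟩ := hW
      exact ⟨z, fun _ => hz, fun _ => ⟨hz, hz2⟩⟩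
    · by_cases hL : ∃ y, Legal O x A y
      · obtain ⟨y, hy⟩ := hL
        exact ⟨y, fun _ => hy, fun h => absurd h hW⟩
      · exact ⟨x, fun h => absurd h hL, fun h => absurd h hW⟩
  choose σ h1 h2 using h
  exact ⟨σ, fun x A => h1 x A, fun x A => h2 x A⟩

/-- The strategy of the player who moves at time `k`. -/
def mv (σ τ : S d → Finset (S d) → S d) (k : ℕ) : S d → Finset (S d) → S d :=
  if k % 2 = 0 then σ else τ

theorem mv_two (σ τ : S d → Finset (S d) → S d) (k : ℕ) : mv σ τ (k + 2) = mv σ τ k := by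
  unfold mv
  have : (k + 2) % 2 = k % 2 := by omega
  rw [this]

theorem play_succ (σ τ : S d → Finset (S d) → S d) (v : S d) (k : ℕ) :
    play σ τ v (k + 1) = (mv σ τ k (play σ τ v k).1 (play σ τ v k).2,
      insert (mv σ τ k (play σ τ v k).1 (play σ τ v k).2) (play σ τ v k).2) := rfl

theorem mv_strat {O : Set (S d)} {σ τ : S d → Finset (S d) → S d} (hσ : IsStrategy O σ)
    (hτ : IsStrategy O τ) (k : ℕ) : IsStrategy O (mv σ τ k) := by
  unfold mv
  split_ifs
  · exact hσ
  · exact hτ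

theorem mv_legal {O : Set (S d)} {σ τ : S d → Finset (S d) → S d} (hσ : IsStrategy O σ)
    (hτ : IsStrategy O τ) {v : S d} {k : ℕ} (h : ¬ Stuck O (play σ τ v k)) :
    Legal O (play σ τ v k).1 (play σ τ v k).2 (mv σ τ k (play σ τ v k).1 (play σ τ v k).2) := by
  unfold Stuck at h
  push Not at h
  exact mv_strat hσ hτ k _ _ h

/-- A player in a winning position who uses a winning strategy wins. -/
theorem win_lem {O : Set (S d)} {σ τ : S d → Finset (S d) → S d} (hσ : IsStrategy O σ)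
    (hτ : IsStrategy O τ) (v : S d) : ∀ (n k : ℕ), WinS O (mv σ τ k) →
    W O n (play σ τ v k).1 (play σ τ v k).2 →
    ∃ j, k ≤ j ∧ j % 2 ≠ k % 2 ∧ Stuck O (play σ τ v j) ∧
      ∀ m, k ≤ m → m < j → ¬ Stuck O (play σ τ v m) := by
  intro n
  induction n using Nat.strong_induction_on with
  | _ n ih =>
    intro k hk hW
    obtain ⟨h1, m, hm, h2⟩ := hk.2 _ _ _ hW
    have hns : ¬ Stuck O (play σ τ v k) := fun h => h _ h1
    by_cases hs : Stuck O (play σ τ v (k + 1))
    · refine ⟨k + 1, by omega, by omega, hs, ?_⟩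
      intro m h3 h4
      have : m = k := by omega
      subst this
      exact hns
    · have h3 := mv_legal hσ hτ hs
      have h4 := h2 _ (by rw [play_succ] at h3; exact h3)
      have h5 : W O m (play σ τ v (k + 2)).1 (play σ τ v (k + 2)).2 := by
        have e : play σ τ v (k + 2) = play σ τ v ((k + 1) + 1) := rfl
        rw [e, play_succ σ τ v (k + 1), play_succ σ τ v k]
        exact h4
      obtain ⟨j, hj1, hj2, hj3, hj4⟩ := ih m hm (k + 2) (by rw [mv_two]; exact hk) h5
      refine ⟨j, by omega, by omega, hj3, ?_⟩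
      intro m' h6 h7
      by_cases h8 : m' = k
      · subst h8; exact hns
      · by_cases h9 : m' = k + 1
        · subst h9; exact hs
        · exact hj4 m' (by omega) h7

/-- A player in a safe position who uses a safe strategy never gets stuck first. -/
theorem safe_lem {O : Set (S d)} {σ τ : S d → Finset (S d) → S d} (hσ : IsStrategy O σ)
    (hτ : IsStrategy O τ) (v : S d) (k : ℕ) (hk : SafeS O (mv σ τ (k + 1)))
    (h0 : ∀ n, ¬ W O n (play σ τ v k).1 (play σ τ v k).2) :
    ∀ i : ℕ, (∀ m, k ≤ m → m < k + 2 * i → ¬ Stuck O (play σ τ v m)) →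
    ∀ n, ¬ W O n (play σ τ v (k + 2 * i)).1 (play σ τ v (k + 2 * i)).2 := by
  intro i
  induction i with
  | zero => intro _; exact h0
  | succ i ih =>
    intro h
    have h1 := ih (fun m hm1 hm2 => h m hm1 (by omega))
    have h2 := mv_legal hσ hτ (h (k + 2 * i) (by omega) (by omega))
    have h3 := key1 h1 h2
    have h4 : SafeS O (mv σ τ (k + 2 * i + 1)) := by
      have : mv σ τ (k + 2 * i + 1) = mv σ τ (k + 1) := by
        unfold mv
        have : (k + 2 * i + 1) % 2 = (k + 1) % 2 := by omega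
        rw [this]
      rw [this]; exact hk
    have h5 := h4.2 _ _ h3
    have e : play σ τ v (k + 2 * (i + 1)) = play σ τ v ((k + 2 * i + 1) + 1) := rfl
    rw [e, play_succ σ τ v (k + 2 * i + 1), play_succ σ τ v (k + 2 * i)]
    exact h5.2

theorem safe_lem2 {O : Set (S d)} {σ τ : S d → Finset (S d) → S d} (hσ : IsStrategy O σ)
    (hτ : IsStrategy O τ) (v : S d) (k : ℕ) (hk : SafeS O (mv σ τ (k + 1)))
    (h0 : ∀ n, ¬ W O n (play σ τ v k).1 (play σ τ v k).2) (j : ℕ) (hj : k ≤ j)
    (hj2 : j % 2 ≠ k % 2) (hs : Stuck O (play σ τ v j))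
    (hm : ∀ m, k ≤ m → m < j → ¬ Stuck O (play σ τ v m)) : False := by
  obtain ⟨i, hi⟩ : ∃ i, j = k + 2 * i + 1 := ⟨(j - k - 1) / 2, by omega⟩
  subst hi
  have h1 := safe_lem hσ hτ v k hk h0 i (fun m hm1 hm2 => hm m hm1 (by omega))
  have h2 := mv_legal hσ hτ (hm (k + 2 * i) (by omega) (by omega))
  obtain ⟨z, hz, _⟩ := key1 h1 h2
  rw [play_succ σ τ v (k + 2 * i)] at hs
  exact hs z hz

theorem strat : St_STRAT := by
  intro d O v
  constructor
  · constructor
    · rintro (h | ⟨σ, hσ, h⟩)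
      · exact Or.inl h
      · right
        by_contra hc
        push Not at hc
        obtain ⟨τ, hτ⟩ := exists_safeS O
        obtain ⟨n, hn, hs, hm⟩ := h τ hτ.1
        exact safe_lem2 hσ hτ.1 v 0 hτ hc n (Nat.zero_le _) (by omega) hs (fun m _ h => hm m h)
    · rintro (h | ⟨n, hW⟩)
      · exact Or.inl h
      · right
        obtain ⟨σ, hσ⟩ := exists_winS O
        refine ⟨σ, hσ.1, fun τ hτ => ?_⟩
        obtain ⟨j, _, hj2, hj3, hj4⟩ := win_lem hσ.1 hτ v n 0 hσ hW
        exact ⟨j, by omega, hj3, fun m hm => hj4 m (Nat.zero_le _) hm⟩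
  · constructor
    · rintro ⟨hv, τ, hτ, h⟩
      refine ⟨hv, ?_⟩
      by_contra hc
      push Not at hc
      have h1 : ∃ z, Legal O v {v} z ∧ ∀ n, ¬ W O n z (insert z {v}) := key0 hc
      obtain ⟨σ, hσ⟩ := exists_safeS O
      obtain ⟨n, hn, hs, hm⟩ := h σ hσ.1
      have h2 := hσ.2 _ _ h1
      have h3 : ∀ n, ¬ W O n (play σ τ v 1).1 (play σ τ v 1).2 := h2.2
      cases n with
      | zero => exact hs _ h2.1
      | succ n =>
        exact safe_lem2 hσ.1 hτ v 1 hσ h3 (n + 1) (by omega) (by omega) hs (fun m _ h => hm m h)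
    · rintro ⟨hv, n, h⟩
      refine ⟨hv, ?_⟩
      obtain ⟨τ, hτ⟩ := exists_winS O
      refine ⟨τ, hτ.1, fun σ hσ => ?_⟩
      by_cases hs : Stuck O (play σ τ v 0)
      · exact ⟨0, rfl, hs, fun m hm => absurd hm (Nat.not_lt_zero m)⟩
      · have h1 := mv_legal hσ hτ.1 hs
        have h2 : W O n (play σ τ v 1).1 (play σ τ v 1).2 := h _ h1
        obtain ⟨j, hj1, hj2, hj3, hj4⟩ := win_lem hσ hτ.1 v n 1 hτ h2
        refine ⟨j, by omega, hj3, fun m hm => ?_⟩
        by_cases h0 : m = 0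
        · subst h0; exact hs
        · exact hj4 m (by omega) hm

end Pool.Agent.W564.TR
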